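import Pool.Agent.W782.GC.Sim

/-!
# Project GC (helper422): task GC-IDX
-/

namespace Pool.Agent.W782.GC

open Pool.Agent.W422.GC Pool.Agent.H628R4.TZ Pool.Agent.H628R4.TP Pool.Agent.W425.SM MeasureTheory

lemma index_range {J : Type} [Fintype J] [DecidableEq J] (H : Matrix J J ℤ) :
    (LinearMap.range (Matrix.toLin' H)).toAddSubgroup.index = H.det.natAbs := by
  by_cases hdet : H.det = 0
  · rw [hdet, Int.natAbs_zero]
    by_contra hne
    set n := (LinearMap.range (Matrix.toLin' H)).toAddSubgroup.index with hn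
    have h1 : ∀ j : J, ∃ x : J → ℤ, Matrix.toLin' H x = n • (Pi.single j 1 : J → ℤ) := by
      intro j
      have := AddSubgroup.nsmul_index_mem (LinearMap.range (Matrix.toLin' H)).toAddSubgroup
        (Pi.single j 1 : J → ℤ)
      rw [← hn] at this
      exact this
    choose x hx using h1
    have h2 : H * (Matrix.of fun k j => x j k) = (n : ℤ) • (1 : Matrix J J ℤ) := by
      ext k j
      have h3 := congrFun (hx j) k
      rw [Matrix.toLin'_apply] at h3
      simp only [Matrix.mulVec, dotProduct, Pi.smul_apply, Pi.single_apply] at h3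
      rw [Matrix.mul_apply]
      simp only [Matrix.of_apply, Matrix.smul_apply, Matrix.one_apply, smul_eq_mul]
      rw [h3]
      simp
    have h4 := congrArg Matrix.det h2
    rw [Matrix.det_mul, hdet, zero_mul, Matrix.det_smul, Matrix.det_one, mul_one] at h4
    have h5 : (n : ℤ) ^ Fintype.card J ≠ 0 := pow_ne_zero _ (by exact_mod_cast hne)
    exact h5 h4.symm
  · have hinj : Function.Injective (Matrix.toLin' H) := by
      rw [← LinearMap.ker_eq_bot]
      exact Matrix.ker_toLin'_eq_bot_iff.mpr (fun w hw => Matrix.eq_zero_of_mulVec_eq_zero hdet hw)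
    have key := Submodule.natAbs_det_equiv (LinearMap.range (Matrix.toLin' H))
      (LinearEquiv.ofInjective (Matrix.toLin' H) hinj)
    have h4 : (LinearMap.range (Matrix.toLin' H)).subtype ∘ₗ AddMonoidHom.toIntLinearMap
        ((LinearEquiv.ofInjective (Matrix.toLin' H) hinj : (J → ℤ) ≃ₗ[ℤ] _) :
          (J → ℤ) →+ LinearMap.range (Matrix.toLin' H)) = Matrix.toLin' H := by
      ext x; rfl
    rw [h4, LinearMap.det_toLin'] at key
    rw [key]
    rfl

lemma affInd_iff {ι I : Type} [Fintype ι] (p : ι → (I → ℝ)) :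
    AffineIndependent ℝ p ↔
      ∀ w : ι → ℝ, ∑ i, w i = 0 → ∑ i, w i • p i = 0 → ∀ i, w i = 0 := by
  rw [affineIndependent_iff_of_fintype]
  refine forall₂_congr fun w hw => ?_
  rw [Finset.univ.weightedVSub_eq_linear_combination hw]

variable {r N : ℕ} {v : Fin r → Fin N → ℕ} {σ : Finset (Fin N → ℕ)}
  {B : Matrix (Fin N) (Fin N) ℤ}

lemma card_rest (hC : IsCompl σ B) : Fintype.card (Rest σ B) + σ.card = N := by
  classical
  obtain ⟨hB, hrow⟩ := hC
  choose i hi using fun ρ : σ => hrow ρ ρ.2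
  have h1 : Fintype.card {k : Fin N // ¬ ∀ ρ ∈ σ, ∃ l, B k l ≠ (ρ l : ℤ)} = σ.card := by
    rw [← Fintype.card_coe σ]
    symm
    apply Fintype.card_of_bijective
      (f := fun ρ : σ => (⟨i ρ, fun h => by
        obtain ⟨l, hl⟩ := h ρ ρ.2
        exact hl (hi ρ l)⟩ : {k : Fin N // ¬ ∀ ρ ∈ σ, ∃ l, B k l ≠ (ρ l : ℤ)}))
    constructor
    · intro ρ ρ' h
      have h2 : i ρ = i ρ' := congrArg Subtype.val h
      apply Subtype.ext
      funext l
      have h3 := hi ρ l
      have h4 := hi ρ' l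
      rw [h2, h4] at h3
      exact_mod_cast h3.symm
    · rintro ⟨k, hk⟩
      push Not at hk
      obtain ⟨ρ, hρ, hkρ⟩ := hk
      refine ⟨⟨ρ, hρ⟩, ?_⟩
      apply Subtype.ext
      show i ⟨ρ, hρ⟩ = k
      by_contra hne
      have h2 : B.det = 0 := Matrix.det_zero_of_row_eq hne (by
        funext l
        rw [hi ⟨ρ, hρ⟩ l, hkρ l])
      rw [h2] at hB
      simp at hB
  have h2 := Fintype.card_subtype_compl (fun k : Fin N => ∀ ρ ∈ σ, ∃ l, B k l ≠ (ρ l : ℤ))
  have h3 := Fintype.card_subtype_le (fun k : Fin N => ∀ ρ ∈ σ, ∃ l, B k l ≠ (ρ l : ℤ))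
  have h4 : Fintype.card (Rest σ B) =
      Fintype.card {k : Fin N // ∀ ρ ∈ σ, ∃ l, B k l ≠ (ρ l : ℤ)} := Fintype.card_congr (Equiv.refl _)
  rw [Fintype.card_fin] at h2 h3
  omega

/-- integral coordinates -/
def cz (v : Fin r → Fin N → ℕ) (B : Matrix (Fin N) (Fin N) ℤ) (k : Fin N) (j : Fin r) : ℤ :=
  ∑ l, B k l * (v j l : ℤ)

lemma chart_eq (j : Fin r) (i : Rest σ B) : chart v σ B j i = (cz v B i j : ℝ) := rfl

lemma cz_const {k : Fin N} (hk : ¬ ∀ ρ ∈ σ, ∃ l, B k l ≠ (ρ l : ℤ)) :
    ∃ q : ℤ, ∀ j ∈ minSet v σ, cz v B k j = q := by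
  push Not at hk
  obtain ⟨ρ, hρ, h⟩ := hk
  refine ⟨ordAlong v ρ, fun j hj => ?_⟩
  rw [minSet, Finset.mem_filter] at hj
  rw [← hj.2 ρ hρ, cz]
  push_cast
  exact Finset.sum_congr rfl fun l _ => by rw [h l]

/-- the matrix -/
def MM (v : Fin r → Fin N → ℕ) (σ : Finset (Fin N → ℕ)) (B : Matrix (Fin N) (Fin N) ℤ)
    (f : Rest σ B ⊕ Unit → Fin r) : Matrix (Rest σ B ⊕ Unit) (Rest σ B ⊕ Unit) ℤ :=
  Matrix.fromBlocks (Matrix.of fun i l => cz v B l (f (Sum.inl i))) (Matrix.of fun _ _ => 1)
    (Matrix.of fun _ l => cz v B l (f (Sum.inr ()))) 1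

lemma MM_inl (f : Rest σ B ⊕ Unit → Fin r) (k : Rest σ B ⊕ Unit) (l : Rest σ B) :
    MM v σ B f k (Sum.inl l) = cz v B l (f k) := by
  rcases k with i | i <;> rfl

lemma MM_inr (f : Rest σ B ⊕ Unit → Fin r) (k : Rest σ B ⊕ Unit) :
    MM v σ B f k (Sum.inr ()) = 1 := by
  rcases k with i | i <;> rfl

lemma MM_det (f : Rest σ B ⊕ Unit → Fin r) : (MM v σ B f).det =
    (Matrix.of fun i l : Rest σ B => cz v B l (f (Sum.inl i)) - cz v B l (f (Sum.inr ()))).det := by
  rw [MM, Matrix.det_fromBlocks_one₂₂]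
  congr 1
  ext i l
  simp [Matrix.mul_apply]

lemma idx_det (hC : IsCompl σ B) {J : Finset (Fin r)} (hJ : J ⊆ minSet v σ)
    (e : J ≃ Rest σ B ⊕ Unit) :
    idx v J = (MM v σ B fun k => (e.symm k : Fin r)).det.natAbs := by
  classical
  set M := MM v σ B fun k => (e.symm k : Fin r) with hM
  have hrow : ∀ k : Fin N, ∃ q : ℤ, (∀ ρ ∈ σ, ∃ l, B k l ≠ (ρ l : ℤ)) ∨
      ∀ j ∈ minSet v σ, cz v B k j = q := by
    intro k
    by_cases hk : ∀ ρ ∈ σ, ∃ l, B k l ≠ (ρ l : ℤ)
    · exact ⟨0, Or.inl hk⟩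
    · obtain ⟨q, hq⟩ := cz_const (v := v) hk
      exact ⟨q, Or.inr hq⟩
  choose q hq using hrow
  have hH : ∀ (c : J → ℤ) (j : J), Matrix.toLin' (M.submatrix e e) c j =
      ∑ l : Rest σ B, cz v B l j * c (e.symm (Sum.inl l)) + c (e.symm (Sum.inr ())) := by
    intro c j
    rw [Matrix.toLin'_apply]
    simp only [Matrix.mulVec, dotProduct, Matrix.submatrix_apply]
    rw [← e.symm.sum_comp, Fintype.sum_sum_type]
    simp [hM, MM_inl, MM_inr]
  have hE : ∀ (w' : Fin N → ℤ) (t : ℤ) (j : J),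
      evalHom v J (B.transpose.mulVec w', t) j = ∑ k, w' k * cz v B k j + t := by
    intro w' t j
    simp only [evalHom, AddMonoidHom.coe_mk, ZeroHom.coe_mk, cz, Matrix.mulVec, dotProduct,
      Matrix.transpose_apply, Finset.sum_mul, Finset.mul_sum]
    rw [Finset.sum_comm]
    congr 1
    exact Finset.sum_congr rfl fun i _ => Finset.sum_congr rfl fun k _ => by ring
  have hsplit : ∀ (w' : Fin N → ℤ) (j : J), ∑ k, w' k * cz v B k j =
      ∑ l : Rest σ B, cz v B l j * w' l +
        ∑ k ∈ Finset.univ.filter (fun k : Fin N => ¬ ∀ ρ ∈ σ, ∃ l, B k l ≠ (ρ l : ℤ)), w' k * q k := by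
    intro w' j
    rw [← Finset.sum_filter_add_sum_filter_not Finset.univ
      (fun k : Fin N => ∀ ρ ∈ σ, ∃ l, B k l ≠ (ρ l : ℤ))]
    congr 1
    · rw [Finset.sum_subtype (p := fun k : Fin N => ∀ ρ ∈ σ, ∃ l, B k l ≠ (ρ l : ℤ))]
      · exact Finset.sum_congr rfl fun l _ => mul_comm _ _
      · intro k
        simp
    · refine Finset.sum_congr rfl fun k hk => ?_
      rw [Finset.mem_filter] at hk
      rcases hq k with h | h
      · exact absurd h hk.2
      · rw [h j (hJ j.2)]
  have hrange : (evalHom v J).range =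
      (LinearMap.range (Matrix.toLin' (M.submatrix e e))).toAddSubgroup := by
    ext y
    simp only [AddMonoidHom.mem_range, Submodule.mem_toAddSubgroup, LinearMap.mem_range]
    constructor
    · rintro ⟨⟨w, t⟩, rfl⟩
      obtain ⟨w', hw'⟩ : ∃ w' : Fin N → ℤ, B.transpose.mulVec w' = w := by
        have hT : IsUnit B.transpose := by
          rw [Matrix.isUnit_iff_isUnit_det, Matrix.det_transpose]; exact hC.1
        exact Matrix.mulVec_surjective_iff_isUnit.mpr hT w
      refine ⟨fun j => (e j).elim (fun l : Rest σ B => w' l) (fun _ => t +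
        ∑ k ∈ Finset.univ.filter (fun k : Fin N => ¬ ∀ ρ ∈ σ, ∃ l, B k l ≠ (ρ l : ℤ)), w' k * q k),
        ?_⟩
      funext j
      rw [hH, ← hw', hE, hsplit]
      simp only [Equiv.apply_symm_apply, Sum.elim_inl, Sum.elim_inr]
      ring
    · rintro ⟨c, rfl⟩
      set w' : Fin N → ℤ := fun k => if h : ∀ ρ ∈ σ, ∃ l, B k l ≠ (ρ l : ℤ) then
        c (e.symm (Sum.inl ⟨k, h⟩)) else 0 with hw'
      refine ⟨(B.transpose.mulVec w', c (e.symm (Sum.inr ()))), ?_⟩
      funext j
      rw [hH, hE, hsplit]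
      have h1 : ∑ k ∈ Finset.univ.filter
          (fun k : Fin N => ¬ ∀ ρ ∈ σ, ∃ l, B k l ≠ (ρ l : ℤ)), w' k * q k = 0 := by
        apply Finset.sum_eq_zero
        intro k hk
        rw [Finset.mem_filter] at hk
        rw [hw']
        simp only
        rw [dif_neg hk.2, zero_mul]
      have h2 : ∀ l : Rest σ B, w' l = c (e.symm (Sum.inl l)) := by
        intro l
        rw [hw']
        simp only
        rw [dif_pos l.2]
      rw [h1, add_zero]
      congr 1
      exact Finset.sum_congr rfl fun l _ => by rw [h2 l]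
  rw [idx, hrange, index_range, Matrix.det_submatrix_equiv_self]

lemma affInd_det {J : Finset (Fin r)} (e : J ≃ Rest σ B ⊕ Unit) :
    AffineIndependent ℝ (fun j : J => chart v σ B j) ↔
      (MM v σ B fun k => (e.symm k : Fin r)).det ≠ 0 := by
  classical
  set M := MM v σ B fun k => (e.symm k : Fin r) with hM
  have hMR : (M.map (fun x : ℤ => (x : ℝ))).det = (M.det : ℝ) :=
    (RingHom.map_det (Int.castRingHom ℝ) M).symm
  have h1 : M.det ≠ 0 ↔ ¬ (M.map (fun x : ℤ => (x : ℝ))).det = 0 := by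
    rw [hMR]
    exact_mod_cast Iff.rfl
  rw [h1, ← Matrix.exists_vecMul_eq_zero_iff, affInd_iff]
  push Not
  have hmul : ∀ w : Rest σ B ⊕ Unit → ℝ, Matrix.vecMul w (M.map (fun x : ℤ => (x : ℝ))) = 0 ↔
      (∑ j : J, w (e j) = 0 ∧ ∑ j : J, w (e j) • chart v σ B j = 0) := by
    intro w
    have ha : ∑ j : J, w (e j) = ∑ k, w k := e.sum_comp w
    have hb : ∑ j : J, w (e j) • chart v σ B j = ∑ k, w k • chart v σ B (e.symm k) := by
      rw [← e.sum_comp]
      simp
    rw [ha, hb]
    constructor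
    · intro h
      constructor
      · have := congrFun h (Sum.inr ())
        simpa [Matrix.vecMul, dotProduct, hM, MM_inr] using this
      · funext l
        have := congrFun h (Sum.inl l)
        simp only [Matrix.vecMul, dotProduct, hM, Matrix.map_apply, MM_inl] at this
        rw [Finset.sum_apply]
        simpa [chart_eq] using this
    · rintro ⟨h2, h3⟩
      funext k
      rcases k with l | k
      · have := congrFun h3 l
        rw [Finset.sum_apply] at this
        simp only [Matrix.vecMul, dotProduct, hM, Matrix.map_apply, MM_inl]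
        simpa [chart_eq] using this
      · obtain rfl : k = () := rfl
        simpa [Matrix.vecMul, dotProduct, hM, MM_inr] using h2
  constructor
  · intro h w hw hz
    apply hw
    obtain ⟨h2, h3⟩ := (hmul w).mp hz
    have h4 := h (fun j => w (e j)) h2 h3
    funext k
    have := h4 (e.symm k)
    simpa using this
  · intro h w h2 h3 j
    by_contra hne
    refine h (fun k => w (e.symm k)) (fun h0 => hne ?_) ((hmul _).mpr ?_)
    · have := congrFun h0 (e j)
      simpa using this
    · simpa using ⟨h2, h3⟩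

/-- GC-IDX -/
theorem idx_vol (hsim : S_SIM) : S_IDX := by
  intro r N v σ B hC J hJ hcard
  classical
  have hc := card_rest hC
  have hcJ : Fintype.card J = Fintype.card (Rest σ B ⊕ Unit) := by
    rw [Fintype.card_coe, Fintype.card_sum, Fintype.card_unit]
    omega
  let e : J ≃ Rest σ B ⊕ Unit := Fintype.equivOfCardEq hcJ
  have hidx := idx_det (v := v) hC hJ e
  refine ⟨?_, ?_⟩
  · set p0 : Rest σ B → ℝ := chart v σ B (e.symm (Sum.inr ())) with hp0
    set A : Matrix (Rest σ B) (Rest σ B) ℝ :=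
      Matrix.of fun i l => chart v σ B (e.symm (Sum.inl i)) l - p0 l with hA
    have himg : chart v σ B '' (J : Set (Fin r)) =
        insert p0 (Set.range fun i => p0 + A.row i) := by
      ext x
      constructor
      · rintro ⟨j, hj, rfl⟩
        rcases h : e ⟨j, hj⟩ with i | i
        · right
          refine ⟨i, ?_⟩
          have h2 : (e.symm (Sum.inl i) : Fin r) = j := by
            rw [← h]; simp
          funext l
          simp [hA, Matrix.row, h2]
        · left
          have h2 : (e.symm (Sum.inr ()) : Fin r) = j := by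
            rw [show (Sum.inr () : Rest σ B ⊕ Unit) = e ⟨j, hj⟩ from h.symm]; simp
          rw [hp0, h2]
      · rintro (rfl | ⟨i, rfl⟩)
        · exact ⟨_, (e.symm (Sum.inr ())).2, rfl⟩
        · refine ⟨_, (e.symm (Sum.inl i)).2, ?_⟩
          funext l
          simp [hA, Matrix.row]
    have hdet : A.det = ((MM v σ B fun k => (e.symm k : Fin r)).det : ℝ) := by
      rw [MM_det]
      have := RingHom.map_det (Int.castRingHom ℝ) (Matrix.of fun i l : Rest σ B =>
        cz v B l (e.symm (Sum.inl i) : Fin r) - cz v B l (e.symm (Sum.inr ()) : Fin r))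
      simp only [Int.coe_castRingHom] at this
      rw [this]
      congr 1
      ext i l
      simp [hA, hp0, chart_eq]
    rw [himg, hsim p0 A, mul_div_cancel_right₀ _ std_pos.ne', hdet, hidx, Nat.cast_natAbs,
      Int.cast_abs]
  · rw [affInd_det e, hidx]
    simp

/-- GC-IDX, without hypothesis -/
theorem idxMain : S_IDX := idx_vol sim

end Pool.Agent.W782.GC
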