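import Pool.Agent.W422.GC.Stms

/-!
# Project GC (helper422): tasks GC-SIM, GC-IDX
-/

namespace Pool.Agent.W782.GC

open Pool.Agent.W422.GC Pool.Agent.H628R4.TZ Pool.Agent.H628R4.TP Pool.Agent.W425.SM MeasureTheory

/-- GC-SIM -/
theorem sim : S_SIM := by
  intro I _ _ p0 A
  set S : Set (I → ℝ) := insert 0 (Set.range fun i : I => (Pi.single i 1 : I → ℝ)) with hS
  set f : (I → ℝ) →ₗ[ℝ] (I → ℝ) := Matrix.toLin' A.transpose with hf
  have hfi : ∀ i, f (Pi.single i 1) = A.row i := by
    intro i
    rw [hf, Matrix.toLin'_apply, Matrix.mulVec_single_one]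
    rfl
  have himg : insert p0 (Set.range fun i => p0 + A.row i) = (fun x => p0 + x) '' (f '' S) := by
    rw [hS, Set.image_insert_eq, Set.image_insert_eq, map_zero, add_zero]
    congr 1
    rw [← Set.range_comp, ← Set.range_comp]
    congr 1
    funext i
    simp only [Function.comp_apply, hfi]
  have h1 : convexHull ℝ ((fun x => p0 + x) '' (f '' S)) =
      (fun x => p0 + x) '' (f '' convexHull ℝ S) := by
    have h2 := (AffineEquiv.constVAdd ℝ (I → ℝ) p0).toAffineMap.image_convexHull (f '' S)
    have h3 : f '' convexHull ℝ S = convexHull ℝ (f '' S) := f.toAffineMap.image_convexHull S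
    rw [h3]
    exact h2.symm
  rw [himg, h1, Set.image_add_left, measure_preimage_add, Measure.addHaar_image_linearMap,
    ENNReal.toReal_mul, ENNReal.toReal_ofReal (abs_nonneg _), hf, LinearMap.det_toLin',
    Matrix.det_transpose]

section std

variable {I : Type} [Fintype I] [DecidableEq I]

lemma mem_std (x : I → ℝ) (h0 : ∀ i, 0 ≤ x i) (h1 : ∑ i, x i ≤ 1) :
    x ∈ convexHull ℝ (insert 0 (Set.range fun i : I => (Pi.single i 1 : I → ℝ))) := by
  have hc := convex_convexHull ℝ (insert 0 (Set.range fun i : I => (Pi.single i 1 : I → ℝ)))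
  have hz : (0 : I → ℝ) ∈ convexHull ℝ (insert 0 (Set.range fun i : I => (Pi.single i 1 : I → ℝ))) :=
    subset_convexHull ℝ _ (Set.mem_insert _ _)
  have he : ∀ i : I, (Pi.single i 1 : I → ℝ) ∈
      convexHull ℝ (insert 0 (Set.range fun i : I => (Pi.single i 1 : I → ℝ))) :=
    fun i => subset_convexHull ℝ _ (Set.mem_insert_of_mem _ ⟨i, rfl⟩)
  have h2 := hc.sum_mem (t := (Finset.univ : Finset (Option I)))
    (w := fun o => o.elim (1 - ∑ i, x i) x) (z := fun o => o.elim 0 fun i => Pi.single i 1)
    (by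
      rintro (_ | i) _
      · simpa using h1
      · exact h0 i)
    (by simp [Fintype.sum_option])
    (by
      rintro (_ | i) _
      · exact hz
      · exact he i)
  rw [Fintype.sum_option] at h2
  simp only [Option.elim_none, smul_zero, zero_add, Option.elim_some] at h2
  have h3 : ∑ i, x i • (Pi.single i 1 : I → ℝ) = x := by
    funext l
    simp [Finset.sum_apply, Pi.single_apply]
  rwa [h3] at h2

lemma std_pos : 0 < (volume (convexHull ℝ (insert 0
    (Set.range fun i : I => (Pi.single i 1 : I → ℝ))))).toReal := by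
  have hfin : volume (convexHull ℝ (insert 0
      (Set.range fun i : I => (Pi.single i 1 : I → ℝ)))) ≠ ⊤ :=
    (((Set.finite_range _).insert 0).isCompact_convexHull ℝ).measure_lt_top.ne
  apply ENNReal.toReal_pos _ hfin
  set n : ℝ := (Fintype.card I : ℝ) + 1 with hn
  have hn0 : 0 < n := by positivity
  have hsub : Set.pi Set.univ (fun _ : I => Set.Ioo (0 : ℝ) (1 / n)) ⊆
      convexHull ℝ (insert 0 (Set.range fun i : I => (Pi.single i 1 : I → ℝ))) := by
    intro x hx
    have hx' : ∀ i, 0 < x i ∧ x i < 1 / n := fun i => hx i (Set.mem_univ _)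
    apply mem_std x fun i => (hx' i).1.le
    calc ∑ i, x i ≤ ∑ _i : I, 1 / n := Finset.sum_le_sum fun i _ => (hx' i).2.le
      _ = (Fintype.card I : ℝ) / n := by
        rw [Finset.sum_const, Finset.card_univ, nsmul_eq_mul]
        ring
      _ ≤ 1 := by
        rw [div_le_one hn0, hn]
        linarith
  have hpos : 0 < volume (Set.pi Set.univ (fun _ : I => Set.Ioo (0 : ℝ) (1 / n))) := by
    rw [Real.volume_pi_Ioo]
    refine pos_iff_ne_zero.mpr (Finset.prod_ne_zero_iff.mpr fun i _ => ?_)
    simp only [sub_zero]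
    exact (ENNReal.ofReal_pos.mpr (by positivity)).ne'
  exact (lt_of_lt_of_le hpos (measure_mono hsub)).ne'

end std

end Pool.Agent.W782.GC
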