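import Pool.Agent.W782.GC.Idx

/-!
# Project GC (helper422): task GC-VOL
-/

namespace Pool.Agent.W782.GC

open Pool.Agent.W422.GC Pool.Agent.H628R4.TZ Pool.Agent.H628R4.TP Pool.Agent.W425.SM MeasureTheory

variable {r N : ℕ} {v : Fin r → Fin N → ℕ} {σ : Finset (Fin N → ℕ)}
  {B : Matrix (Fin N) (Fin N) ℤ}

/-- a `ℚ`-linear retraction of `ℝ` onto `ℚ` -/
lemma exists_retr : ∃ φ : ℝ →ₗ[ℚ] ℚ, ∀ q : ℚ, φ (q : ℝ) = q := by
  have hinj : LinearMap.ker (Algebra.linearMap ℚ ℝ) = ⊥ := by
    rw [LinearMap.ker_eq_bot]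
    intro a b h
    simpa using h
  obtain ⟨φ, hφ⟩ := (Algebra.linearMap ℚ ℝ).exists_leftInverse_of_injective hinj
  refine ⟨φ, fun q => ?_⟩
  have := LinearMap.congr_fun hφ q
  simpa using this

/-- genericity -/
lemma generic {T I : Type} [Fintype T] [DecidableEq T] [Fintype I] (z : T → I → ℤ) (u : T → ℝ)
    (hu : LinearIndependent ℚ u) (J : Finset T)
    (hJ : AffineIndependent ℝ (fun j : J => fun i => (z j i : ℝ))) (j : T) (hj : j ∉ J)
    (c : T → ℝ) (hc0 : ∀ l ∉ J, c l = 0) (hc1 : ∑ l, c l = 1)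
    (hc2 : ∑ l, c l • (fun i => (z l i : ℝ)) = fun i => (z j i : ℝ)) :
    ∑ l, c l * u l ≠ u j := by
  classical
  obtain ⟨φ, hφ⟩ := exists_retr
  have hφi : ∀ (a : ℝ) (m : ℤ), φ (a * m) = φ a * m := by
    intro a m
    have h1 : a * (m : ℝ) = (m : ℚ) • a := by
      rw [Rat.smul_def]; push_cast; ring
    rw [h1, map_smul, smul_eq_mul, mul_comm]
  have hφz : ∀ m : ℤ, φ (m : ℝ) = m := by
    intro m
    have := hφ (m : ℚ)
    simpa using this
  have hq0 : ∀ l ∉ J, φ (c l) = 0 := fun l hl => by rw [hc0 l hl, map_zero]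
  have hq1 : ∑ l, φ (c l) = 1 := by
    rw [← map_sum, hc1]
    simpa using hφz 1
  have hq2 : ∀ i, ∑ l, φ (c l) * z l i = z j i := by
    intro i
    have h1 := congrFun hc2 i
    rw [Finset.sum_apply] at h1
    simp only [Pi.smul_apply, smul_eq_mul] at h1
    have h2 := congrArg φ h1
    rw [map_sum, hφz] at h2
    rw [← h2]
    exact Finset.sum_congr rfl fun l _ => (hφi _ _).symm
  have hsum : ∀ g : T → ℝ, (∀ l ∉ J, g l = 0) → ∑ l : J, g l = ∑ l, g l := by
    intro g hg
    rw [Finset.sum_coe_sort J g]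
    exact Finset.sum_subset (Finset.subset_univ _) fun l _ hl => hg l hl
  have heq : ∀ l, c l = φ (c l) := by
    intro l
    by_cases hl : l ∈ J
    · rw [affInd_iff] at hJ
      have h3 := hJ (fun l : J => c l - φ (c l)) ?_ ?_ ⟨l, hl⟩
      · linarith
      · rw [hsum (fun l => c l - φ (c l)) (fun l hl => by simp [hc0 l hl]),
          Finset.sum_sub_distrib, hc1]
        have : ∑ l, (φ (c l) : ℝ) = ((∑ l, φ (c l) : ℚ) : ℝ) := by push_cast; rfl
        rw [this, hq1]
        simp
      · funext i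
        rw [Finset.sum_apply]
        simp only [Pi.smul_apply, smul_eq_mul, Pi.zero_apply]
        rw [hsum (fun l => (c l - φ (c l)) * (z l i : ℝ)) (fun l hl => by simp [hc0 l hl])]
        simp only [sub_mul, Finset.sum_sub_distrib]
        have h4 := congrFun hc2 i
        rw [Finset.sum_apply] at h4
        simp only [Pi.smul_apply, smul_eq_mul] at h4
        have h5 : ∑ l, (φ (c l) : ℝ) * (z l i : ℝ) = ((∑ l, φ (c l) * z l i : ℚ) : ℝ) := by
          push_cast; rfl
        rw [h4, h5, hq2 i]
        simp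
    · rw [hc0 l hl, map_zero]; simp
  intro h
  rw [Fintype.linearIndependent_iff] at hu
  have h6 := hu (fun l => φ (c l) - if l = j then 1 else 0) ?_ j
  · simp only [if_true] at h6
    rw [hq0 j hj] at h6
    norm_num at h6
  · simp only [sub_smul, Finset.sum_sub_distrib, ite_smul, one_smul, zero_smul,
      Finset.sum_ite_eq', Finset.mem_univ, if_true]
    rw [← h]
    rw [sub_eq_zero]
    refine Finset.sum_congr rfl fun l _ => ?_
    rw [Rat.smul_def, ← heq l]

lemma sum_ord {j : Fin r} {c : Fin r → ℝ} {J : Finset (Fin r)} (hJ : J ⊆ minSet v σ)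
    (hc0 : ∀ l ∉ J, c l = 0) (hc1 : ∑ l, c l = 1) {ρ : Fin N → ℕ} (hρ : ρ ∈ σ)
    (hc2 : ∀ i, ∑ l, c l * (v l i : ℝ) = (v j i : ℝ)) :
    ((∑ i, ρ i * v j i : ℕ) : ℝ) = ordAlong v ρ := by
  push_cast
  have h1 : ∑ i, (ρ i : ℝ) * (v j i : ℝ) = ∑ l, c l * ((∑ i, ρ i * v l i : ℕ) : ℝ) := by
    simp_rw [← hc2]
    push_cast
    simp only [Finset.mul_sum]
    rw [Finset.sum_comm]
    exact Finset.sum_congr rfl fun l _ => Finset.sum_congr rfl fun i _ => by ring
  have h2 : ∑ l, c l * ((∑ i, ρ i * v l i : ℕ) : ℝ) = ∑ l, c l * (ordAlong v ρ : ℝ) := by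
    refine Finset.sum_congr rfl fun l _ => ?_
    by_cases hl : l ∈ J
    · have := hJ hl
      rw [minSet, Finset.mem_filter] at this
      rw [this.2 ρ hρ]
    · rw [hc0 l hl, zero_mul, zero_mul]
  rw [h1, h2, ← Finset.sum_mul, hc1, one_mul]

/-- GC-VOL -/
theorem vol (h1 : S_TRI) (h2 : S_IDX) : S_VOL := by
  classical
  intro r N v u hu R σ _ hσN B hC
  set T : Type := {j : Fin r // j ∈ minSet v σ} with hT
  set p : T → (Rest σ B → ℝ) := fun j => chart v σ B j with hp
  set u' : T → ℝ := fun j => u j with hu'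
  have hut : LinearIndependent ℚ u' := hu.comp _ Subtype.val_injective
  have hgen : ∀ J : Finset T, AffineIndependent ℝ (fun j : J => p j) → ∀ j ∉ J, ∀ c : T → ℝ,
      (∀ l ∉ J, c l = 0) → ∑ l, c l = 1 → ∑ l, c l • p l = p j → ∑ l, c l * u' l ≠ u' j := by
    intro J hJ j hj c hc0 hc1 hc2
    exact generic (fun (l : T) (i : Rest σ B) => cz v B i l) u' hut J hJ j hj c hc0 hc1 hc2
  have key := h1 p u' hgen
  have hcard := card_rest hC
  have hrange : chart v σ B '' {j | j ∈ minSet v σ} = Set.range p := by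
    ext x
    constructor
    · rintro ⟨j, hj, rfl⟩
      exact ⟨⟨j, hj⟩, rfl⟩
    · rintro ⟨⟨j, hj⟩, rfl⟩
      exact ⟨j, hj, rfl⟩
  unfold faceVol nvol
  rw [hrange]
  have key' : (volume (convexHull ℝ (Set.range p))).toReal =
    ∑ J ∈ (Finset.univ : Finset (Finset T)).filter (fun J : Finset T =>
      J.card = Fintype.card (Rest σ B) + 1 ∧
      AffineIndependent ℝ (fun j : J => p j) ∧ LowR p u' J),
      (volume (convexHull ℝ (p '' (J : Set T)))).toReal := by
    rw [key]
  rw [key', Finset.sum_div]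
  -- the map
  set F : Finset T → Finset (Fin r) := fun J => J.map (Function.Embedding.subtype _) with hF
  have hFsub : ∀ J : Finset T, F J ⊆ minSet v σ := by
    intro J j hj
    rw [hF, Finset.mem_map] at hj
    obtain ⟨l, _, rfl⟩ := hj
    exact l.2
  have hFcard : ∀ J : Finset T, (F J).card = J.card := fun J => Finset.card_map _
  have hFimg : ∀ J : Finset T, chart v σ B '' (F J : Set (Fin r)) = p '' (J : Set T) := by
    intro J
    rw [hF]
    simp only [Finset.coe_map, Function.Embedding.coe_subtype]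
    rw [Set.image_image]
  have hFmem : ∀ (J : Finset T) (j : T), (j : Fin r) ∈ F J ↔ j ∈ J := by
    intro J j
    rw [hF]
    simp
  have hLow : ∀ J : Finset T, LowR p u' J ↔ Low v u (F J) := by
    intro J
    constructor
    · intro hL j hj c hc0 hc1 hc2
      have hjm : j ∈ minSet v σ := by
        rw [minSet, Finset.mem_filter]
        refine ⟨Finset.mem_univ _, fun ρ hρ => ?_⟩
        have := sum_ord (hFsub J) hc0 hc1 hρ hc2
        exact_mod_cast this
      have hsum : ∀ g : Fin r → ℝ, (∀ l ∉ F J, g l = 0) → ∑ l : T, g l = ∑ l, g l := by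
        intro g hg
        have : ∑ l : T, g l = ∑ l ∈ minSet v σ, g l :=
          Finset.sum_coe_sort (minSet v σ) g
        rw [this]
        exact Finset.sum_subset (Finset.subset_univ _) fun l _ hl =>
          hg l fun h => hl (hFsub J h)
      have h3 := hL ⟨j, hjm⟩ (fun h => hj ((hFmem J ⟨j, hjm⟩).mpr h)) (fun l => c l)
        (fun l hl => hc0 l fun h => hl ((hFmem J l).mp h)) (by rw [hsum c hc0, hc1]) ?_
      · rw [← hsum (fun l => c l * u l) (fun l hl => by rw [hc0 l hl, zero_mul])]
        exact h3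
      · funext i
        rw [Finset.sum_apply]
        simp only [Pi.smul_apply, smul_eq_mul, hp, chart_eq]
        rw [hsum (fun l => c l * (cz v B i l : ℝ)) (fun l hl => by rw [hc0 l hl, zero_mul])]
        simp only [cz]
        push_cast
        simp_rw [← hc2, Finset.mul_sum]
        rw [Finset.sum_comm]
        exact Finset.sum_congr rfl fun l _ => Finset.sum_congr rfl fun i _ => by ring
    · intro hL j hj c hc0 hc1 hc2
      set c' : Fin r → ℝ := fun l => if h : l ∈ minSet v σ then c ⟨l, h⟩ else 0 with hc'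
      have hc'T : ∀ l : T, c' l = c l := by
        intro l
        rw [hc']
        simp only
        rw [dif_pos l.2]
      have hc'0 : ∀ l ∉ F J, c' l = 0 := by
        intro l hl
        rw [hc']
        simp only
        split_ifs with h
        · exact hc0 _ fun h3 => hl ((hFmem J ⟨l, h⟩).mpr h3)
        · rfl
      have hsum : ∀ g : Fin r → ℝ, (∀ l ∉ F J, g l = 0) → ∑ l, g l = ∑ l : T, g l := by
        intro g hg
        have : ∑ l : T, g l = ∑ l ∈ minSet v σ, g l :=
          Finset.sum_coe_sort (minSet v σ) g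
        rw [this]
        exact (Finset.sum_subset (Finset.subset_univ _) fun l _ hl =>
          hg l fun h => hl (hFsub J h)).symm
      have hc'1 : ∑ l, c' l = 1 := by
        rw [hsum c' hc'0, ← hc1]
        exact Finset.sum_congr rfl fun l _ => hc'T l
      have hc'2 : ∀ i, ∑ l, c' l * (v l i : ℝ) = (v j i : ℝ) := by
        have hBR : IsUnit (B.map (fun x : ℤ => (x : ℝ))) := by
          rw [Matrix.isUnit_iff_isUnit_det]
          have h3 : (B.map (fun x : ℤ => (x : ℝ))).det = (B.det : ℝ) :=
            (RingHom.map_det (Int.castRingHom ℝ) B).symm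
          rw [h3]
          exact hC.1.map (Int.castRingHom ℝ)
        have hinj := Matrix.mulVec_injective_of_isUnit hBR
        have h4 : (B.map (fun x : ℤ => (x : ℝ))).mulVec (fun i => ∑ l, c' l * (v l i : ℝ)) =
            (B.map (fun x : ℤ => (x : ℝ))).mulVec (fun i => (v j i : ℝ)) := by
          funext k
          have h5 : (B.map (fun x : ℤ => (x : ℝ))).mulVec (fun i => ∑ l, c' l * (v l i : ℝ)) k =
              ∑ l, c' l * (cz v B k l : ℝ) := by
            simp only [Matrix.mulVec, dotProduct, Matrix.map_apply, cz, Finset.mul_sum]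
            push_cast
            simp only [Finset.mul_sum]
            rw [Finset.sum_comm]
            exact Finset.sum_congr rfl fun l _ => Finset.sum_congr rfl fun i _ => by ring
          have h6 : (B.map (fun x : ℤ => (x : ℝ))).mulVec (fun i => (v j i : ℝ)) k =
              (cz v B k j : ℝ) := by
            simp only [Matrix.mulVec, dotProduct, Matrix.map_apply, cz]
            push_cast
            rfl
          rw [h5, h6]
          by_cases hk : ∀ ρ ∈ σ, ∃ l, B k l ≠ (ρ l : ℤ)
          · have h7 := congrFun hc2 ⟨k, hk⟩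
            rw [Finset.sum_apply] at h7
            simp only [Pi.smul_apply, smul_eq_mul, hp, chart_eq] at h7
            rw [hsum (fun l => c' l * (cz v B k l : ℝ)) (fun l hl => by rw [hc'0 l hl, zero_mul]),
              ← h7]
            exact Finset.sum_congr rfl fun l _ => by rw [hc'T l]
          · obtain ⟨q, hq⟩ := cz_const (v := v) hk
            rw [hq j j.2]
            have h8 : ∑ l, c' l * (cz v B k l : ℝ) = ∑ l, c' l * (q : ℝ) := by
              refine Finset.sum_congr rfl fun l _ => ?_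
              by_cases hl : l ∈ F J
              · rw [hq l (hFsub J hl)]
              · rw [hc'0 l hl, zero_mul, zero_mul]
            rw [h8, ← Finset.sum_mul, hc'1, one_mul]
        exact fun i => congrFun (hinj h4) i
      have h3 := hL j (fun h => hj ((hFmem J j).mp h)) c' hc'0 hc'1 hc'2
      rw [hsum (fun l => c' l * u l) (fun l hl => by rw [hc'0 l hl, zero_mul])] at h3
      have h9 : ∑ l : T, c' l * u l = ∑ l : T, c l * u' l :=
        Finset.sum_congr rfl fun l _ => by rw [hc'T l]
      rw [h9] at h3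
      exact h3
  have hAff : ∀ J : Finset T, σ.card + (F J).card = N + 1 →
      (idx v (F J) ≠ 0 ↔ AffineIndependent ℝ (fun j : J => p j)) := by
    intro J hJ
    rw [(h2 v σ B hC (F J) (hFsub J) hJ).2]
    set e : J ≃ F J := Equiv.ofBijective
      (fun j : J => (⟨(j : T), (hFmem J j).mpr j.2⟩ : F J)) (by
        constructor
        · intro a b hab
          have := congrArg Subtype.val hab
          exact Subtype.ext (Subtype.ext this)
        · rintro ⟨j, hj⟩
          have hj' := hj
          rw [hF, Finset.mem_map] at hj'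
          obtain ⟨l, hl, rfl⟩ := hj'
          exact ⟨⟨l, hl⟩, rfl⟩) with he
    rw [← affineIndependent_equiv e]
    rfl
  -- the right side
  have hR : ∑ J ∈ (minSet v σ).powerset.filter
      (fun J => σ.card + J.card = N + 1 ∧ Low v u J), (idx v J : ℝ) =
      ∑ J ∈ (minSet v σ).powerset.filter
      (fun J => (σ.card + J.card = N + 1 ∧ Low v u J) ∧ idx v J ≠ 0), (idx v J : ℝ) := by
    symm
    apply Finset.sum_subset
    · intro J hJ
      rw [Finset.mem_filter] at hJ ⊢
      exact ⟨hJ.1, hJ.2.1⟩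
    · intro J hJ hJ'
      rw [Finset.mem_filter] at hJ hJ'
      by_contra h
      exact hJ' ⟨hJ.1, hJ.2, fun h0 => h (by rw [h0]; simp)⟩
  rw [hR]
  refine Finset.sum_bij (fun J _ => F J) ?_ ?_ ?_ ?_
  · intro J hJ
    rw [Finset.mem_filter] at hJ ⊢
    have hc : σ.card + (F J).card = N + 1 := by rw [hFcard, hJ.2.1]; omega
    exact ⟨Finset.mem_powerset.mpr (hFsub J), ⟨hc, (hLow J).mp hJ.2.2.2⟩,
      (hAff J hc).mpr hJ.2.2.1⟩
  · intro J _ J' _ h
    exact Finset.map_injective _ h
  · intro J hJ
    rw [Finset.mem_filter, Finset.mem_powerset] at hJ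
    have hJF : F (Finset.univ.filter fun j : T => (j : Fin r) ∈ J) = J := by
      ext j
      constructor
      · intro hj
        rw [hF, Finset.mem_map] at hj
        obtain ⟨l, hl, rfl⟩ := hj
        exact (Finset.mem_filter.mp hl).2
      · intro hj
        exact (hFmem _ ⟨j, hJ.1 hj⟩).mpr (Finset.mem_filter.mpr ⟨Finset.mem_univ _, hj⟩)
    refine ⟨Finset.univ.filter fun j : T => (j : Fin r) ∈ J, ?_, hJF⟩
    rw [Finset.mem_filter]
    have hc : σ.card + (F (Finset.univ.filter fun j : T => (j : Fin r) ∈ J)).card = N + 1 := by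
      rw [hJF]; exact hJ.2.1.1
    refine ⟨Finset.mem_univ _, ?_, ?_, ?_⟩
    · rw [← hFcard]; omega
    · rw [← hAff _ hc, hJF]; exact hJ.2.2
    · rw [hLow, hJF]; exact hJ.2.1.2
  · intro J hJ
    rw [Finset.mem_filter] at hJ
    have hc : σ.card + (F J).card = N + 1 := by rw [hFcard, hJ.2.1]; omega
    rw [(h2 v σ B hC (F J) (hFsub J) hc).1, hFimg]

/-- GC-VOL, from `S_TRI` only -/
theorem volMain (h1 : S_TRI) : S_VOL := vol h1 idxMain

end Pool.Agent.W782.GC
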